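import Mathlib

/-!
MP_36bb18, THREE COLOURS, row ALG (section 5 of helper39's page): the elimination in characteristic 2.
`lam`, `X` are cancellable (shifts), `q = 2 ^ e`, and
`E j : 1 + lam ^ j * X + Z ^ (q ^ j) * T ^ (j * q ^ j) = 0` for `j = 0, ..., 5`.
-/

namespace H96.PPR3

section

variable {S : Type*} [CommRing S] [CharP S 2]

theorem add_pow_q (e : ℕ) (a b : S) : (a + b) ^ (2 ^ e) = a ^ (2 ^ e) + b ^ (2 ^ e) := by
  have : Fact (Nat.Prime 2) := ⟨Nat.prime_two⟩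
  exact add_pow_char_pow a b 2 e

theorem eq_of_add_eq_zero {a b : S} (h : a + b = 0) : a = b := by
  have h2 : (2 : S) = 0 := by exact_mod_cast CharP.cast_eq_zero S 2
  linear_combination h - b * h2

/-- The four-monomial identity. -/
theorem four_mono {e q : ℕ} (hq : q = 2 ^ e) {lam X Z T : S}
    (e0 : 1 + X + Z = 0) (e1 : 1 + lam * X + Z ^ q * T ^ q = 0)
    (e2 : 1 + lam ^ 2 * X + Z ^ (q ^ 2) * T ^ (2 * q ^ 2) = 0) :
    lam ^ 2 * X + X ^ (q ^ 2) + lam ^ 2 * X * X ^ (q ^ 2) + (lam * X) ^ (2 * q) = 0 := by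
  have h2 : (2 : S) = 0 := by exact_mod_cast CharP.cast_eq_zero S 2
  have z : Z = 1 + X := (eq_of_add_eq_zero e0).symm
  have w : Z ^ q * T ^ q = 1 + lam * X := (eq_of_add_eq_zero e1).symm
  have w2 : Z ^ (q ^ 2) * T ^ (2 * q ^ 2) = 1 + lam ^ 2 * X := (eq_of_add_eq_zero e2).symm
  have q2 : q ^ 2 = 2 ^ (2 * e) := by rw [hq]; ring
  have tq : 2 * q = 2 ^ (e + 1) := by rw [hq]; ring
  have f1 : (Z ^ q * T ^ q) ^ (2 * q) = Z ^ (q ^ 2) * (Z ^ (q ^ 2) * T ^ (2 * q ^ 2)) := by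
    have a1 : 2 * q ^ 2 = q ^ 2 + q ^ 2 := by ring
    have a2 : q * (2 * q) = q ^ 2 + q ^ 2 := by ring
    have a3 : (Z ^ q * T ^ q) ^ (2 * q) = (Z * T) ^ (q * (2 * q)) := by
      rw [← mul_pow, ← pow_mul]
    rw [a3, a1, a2, mul_pow, pow_add, mul_assoc]
  have f2 : (1 + lam * X) ^ (2 * q) = 1 + (lam * X) ^ (2 * q) := by
    rw [tq, add_pow_q, one_pow]
  have f3 : (1 + X) ^ (q ^ 2) = 1 + X ^ (q ^ 2) := by
    rw [q2, add_pow_q, one_pow]
  rw [w, w2, f2, z, f3] at f1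
  linear_combination -f1 + (lam * X) ^ (2 * q) * h2

end

section

variable {S : Type*} [CommRing S]

theorem elim_four {lam b c d M1 M2 M3 M4 : S}
    (g0 : M1 + M2 + M3 + M4 = 0)
    (g1 : lam * M1 + b * M2 + c * M3 + d * M4 = 0)
    (g2 : lam ^ 2 * M1 + b ^ 2 * M2 + c ^ 2 * M3 + d ^ 2 * M4 = 0)
    (g3 : lam ^ 3 * M1 + b ^ 3 * M2 + c ^ 3 * M3 + d ^ 3 * M4 = 0) :
    (lam - b) * (lam - c) * (lam - d) * M1 = 0 := by
  linear_combination g3 - (b + c + d) * g2 + (b * c + b * d + c * d) * g1 - b * c * d * g0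

theorem one_sub_pow_dvd (lam : S) {a n : ℕ} (h : a ∣ n) : (1 - lam ^ a) ∣ (1 - lam ^ n) := by
  obtain ⟨k, rfl⟩ := h
  rw [pow_mul]
  simpa using sub_dvd_pow_sub_pow (1 : S) (lam ^ a) k

end

section

variable {S : Type*} [CommRing S] [CharP S 2]

theorem pow_eq_one_of_prod {lam : S} {a b c : ℕ}
    (h : (1 - lam ^ a) * (1 - lam ^ b) * (1 - lam ^ c) = 0) : lam ^ (4 * (a * b * c)) = 1 := by
  set n := a * b * c with hn
  have da : (1 - lam ^ a) ∣ (1 - lam ^ n) := one_sub_pow_dvd lam ⟨b * c, by rw [hn]; ring⟩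
  have db : (1 - lam ^ b) ∣ (1 - lam ^ n) := one_sub_pow_dvd lam ⟨a * c, by rw [hn]; ring⟩
  have dc : (1 - lam ^ c) ∣ (1 - lam ^ n) := one_sub_pow_dvd lam ⟨a * b, by rw [hn]; ring⟩
  have d3 : (1 - lam ^ a) * (1 - lam ^ b) * (1 - lam ^ c) ∣
      (1 - lam ^ n) * (1 - lam ^ n) * (1 - lam ^ n) := mul_dvd_mul (mul_dvd_mul da db) dc
  rw [h, zero_dvd_iff] at d3
  have h2 : (2 : S) = 0 := by exact_mod_cast CharP.cast_eq_zero S 2
  have hx : lam ^ (4 * n) = (lam ^ n) ^ 4 := by rw [← pow_mul, mul_comm]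
  rw [hx]
  generalize lam ^ n = t at *
  linear_combination (1 - t) * d3 - (1 - 2 * t + 3 * t ^ 2 - 2 * t ^ 3) * h2

/-- Row ALG: the elimination. `P = 4 (q ^ 2 - 1) q ^ 2 (2 q - 1)`. -/
theorem lam_pow {e q : ℕ} (he : 1 ≤ e) (hq : q = 2 ^ e) {lam X Z T : S}
    (hlam : ∀ a : S, lam * a = 0 → a = 0) (hX : ∀ a : S, X * a = 0 → a = 0)
    (E : ∀ j, j ≤ 5 → 1 + lam ^ j * X + Z ^ (q ^ j) * T ^ (j * q ^ j) = 0) :
    lam ^ (4 * ((q ^ 2 - 1) * q ^ 2 * (2 * q - 1))) = 1 := by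
  have hq2 : 2 ≤ q := by
    rw [hq]; calc 2 = 2 ^ 1 := by norm_num
      _ ≤ 2 ^ e := Nat.pow_le_pow_right (by norm_num) he
  have G : ∀ j, j ≤ 3 → lam ^ 2 * (lam ^ j * X) + (lam ^ j * X) ^ (q ^ 2) +
      lam ^ 2 * (lam ^ j * X) * (lam ^ j * X) ^ (q ^ 2) + (lam * (lam ^ j * X)) ^ (2 * q) = 0 := by
    intro j hj
    refine four_mono (Z := Z ^ (q ^ j) * T ^ (j * q ^ j)) (T := T ^ (q ^ j)) hq (E j (by omega)) ?_ ?_
    · have := E (j + 1) (by omega)
      have e1 : (Z ^ (q ^ j) * T ^ (j * q ^ j)) ^ q * (T ^ (q ^ j)) ^ q =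
          Z ^ (q ^ (j + 1)) * T ^ ((j + 1) * q ^ (j + 1)) := by
        rw [mul_pow, ← pow_mul, ← pow_mul, ← pow_mul, mul_assoc, ← pow_add]
        congr 2 <;> ring
      rw [e1]; rw [pow_succ] at this
      linear_combination this
    · have := E (j + 2) (by omega)
      have e1 : (Z ^ (q ^ j) * T ^ (j * q ^ j)) ^ (q ^ 2) * (T ^ (q ^ j)) ^ (2 * q ^ 2) =
          Z ^ (q ^ (j + 2)) * T ^ ((j + 2) * q ^ (j + 2)) := by
        rw [mul_pow, ← pow_mul, ← pow_mul, ← pow_mul, mul_assoc, ← pow_add]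
        congr 2 <;> ring
      rw [e1]; rw [pow_add] at this
      linear_combination this
  have key : (lam - lam ^ (q ^ 2)) * (lam - lam ^ (q ^ 2 + 1)) * (lam - lam ^ (2 * q)) *
      (lam ^ 2 * X) = 0 := by
    refine elim_four (M2 := X ^ (q ^ 2)) (M3 := lam ^ 2 * X * X ^ (q ^ 2))
      (M4 := (lam * X) ^ (2 * q)) ?_ ?_ ?_ ?_
    · have := G 0 (by omega)
      simpa using this
    · have := G 1 (by omega)
      simp only [mul_pow, pow_succ, pow_zero, one_mul] at this ⊢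
      ring_nf at this ⊢
      linear_combination this
    · have := G 2 (by omega)
      simp only [mul_pow, ← pow_mul] at this ⊢
      ring_nf at this ⊢
      linear_combination this
    · have := G 3 (by omega)
      simp only [mul_pow, ← pow_mul] at this ⊢
      ring_nf at this ⊢
      linear_combination this
  have f1 : lam - lam ^ (q ^ 2) = lam * (1 - lam ^ (q ^ 2 - 1)) := by
    have : q ^ 2 = (q ^ 2 - 1) + 1 := by
      have : 1 ≤ q ^ 2 := Nat.one_le_pow _ _ (by omega)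
      omega
    rw [this, pow_succ]; simp; ring
  have f2 : lam - lam ^ (q ^ 2 + 1) = lam * (1 - lam ^ (q ^ 2)) := by
    rw [pow_succ]; ring
  have f3 : lam - lam ^ (2 * q) = lam * (1 - lam ^ (2 * q - 1)) := by
    have : 2 * q = (2 * q - 1) + 1 := by omega
    rw [this, pow_succ]; simp; ring
  rw [f1, f2, f3] at key
  have key2 : (1 - lam ^ (q ^ 2 - 1)) * (1 - lam ^ (q ^ 2)) * (1 - lam ^ (2 * q - 1)) = 0 := by
    apply hX; apply hlam; apply hlam; apply hlam; apply hlam; apply hlam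
    linear_combination key
  exact pow_eq_one_of_prod key2

/-- Row ALG, complete: if moreover `T = lam ^ h` with `P ∣ h`, then `X ^ (q ^ (q - 1) - 1) = 1`. -/
theorem alg {e q : ℕ} (he : 1 ≤ e) (hq : q = 2 ^ e) {lam X Z T : S}
    (hlam : ∀ a : S, lam * a = 0 → a = 0) (hX : ∀ a : S, X * a = 0 → a = 0)
    (E : ∀ j, j ≤ 5 → 1 + lam ^ j * X + Z ^ (q ^ j) * T ^ (j * q ^ j) = 0)
    {h : ℕ} (hT : T = lam ^ h) (hP : 4 * ((q ^ 2 - 1) * q ^ 2 * (2 * q - 1)) ∣ h) :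
    X ^ (q ^ (q - 1) - 1) = 1 := by
  have hq2 : 2 ≤ q := by
    rw [hq]; calc 2 = 2 ^ 1 := by norm_num
      _ ≤ 2 ^ e := Nat.pow_le_pow_right (by norm_num) he
  have hl := lam_pow he hq hlam hX E
  have hT1 : T = 1 := by
    obtain ⟨k, rfl⟩ := hP
    rw [hT, pow_mul, hl, one_pow]
  have h2 : (2 : S) = 0 := by exact_mod_cast CharP.cast_eq_zero S 2
  have z : Z = 1 + X := by
    have := E 0 (by omega)
    simp only [pow_zero, one_mul, pow_one, mul_one] at this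
    exact (eq_of_add_eq_zero this).symm
  have Ej : ∀ j, j ≤ 5 → X ^ (q ^ j) = lam ^ j * X := by
    intro j hj
    have hh := E j hj
    rw [hT1, one_pow, mul_one, z] at hh
    have e1 : (1 + X) ^ (q ^ j) = 1 + X ^ (q ^ j) := by
      have : q ^ j = 2 ^ (e * j) := by rw [hq, pow_mul]
      rw [this, add_pow_q, one_pow]
    rw [e1] at hh
    linear_combination hh - (1 + lam ^ j * X) * h2
  have x1 : X ^ q = lam * X := by simpa using Ej 1 (by omega)
  have x2 : X ^ (q ^ 2) = lam ^ 2 * X := Ej 2 (by omega)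
  have x3 : X ^ (q ^ 2) = lam ^ (q + 1) * X := by
    rw [pow_two, pow_mul, x1, mul_pow, x1, pow_succ]; ring
  have hlq : lam ^ (q - 1) = 1 := by
    have : lam ^ (q - 1) - 1 = 0 := by
      apply hX; apply hlam; apply hlam
      have hh : lam ^ (q + 1) = lam ^ 2 * lam ^ (q - 1) := by
        rw [← pow_add]; congr 1; omega
      rw [x2, hh] at x3
      linear_combination -x3
    exact sub_eq_zero.1 this
  have hlq' : lam ^ q = lam := by
    have : q = (q - 1) + 1 := by omega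
    rw [this, pow_succ, hlq, one_mul]
  have all : ∀ j, X ^ (q ^ j) = lam ^ j * X := by
    intro j
    induction j with
    | zero => simp
    | succ j ih =>
      rw [pow_succ, pow_mul, ih, mul_pow, x1, ← pow_mul, mul_comm j q, pow_mul, hlq', pow_succ]
      ring
  have fin := all (q - 1)
  rw [hlq, one_mul] at fin
  have : X ^ (q ^ (q - 1) - 1) - 1 = 0 := by
    apply hX
    have hh : X ^ (q ^ (q - 1)) = X * X ^ (q ^ (q - 1) - 1) := by
      have : 1 ≤ q ^ (q - 1) := Nat.one_le_pow _ _ (by omega)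
      rw [← pow_succ']; congr 1; omega
    rw [hh] at fin
    linear_combination fin
  exact sub_eq_zero.1 this

end

end H96.PPR3
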